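import Pool.Agent.Helper53.Pq.Goals

/-!
# MP_705522_gt: packet Pq-NUM (numerical facts on `v(θ)`, `2^θ` and `sin(πθ) 4^θ`)
-/

namespace Pool.Agent.Helper82.Pq

open Set
open Pool.Agent.Helper53.Pq (vv GNum)

namespace NUM

theorem p1_0 (t : ℝ) (h1 : (1 / 6) ≤ t) (h2 : t ≤ (5 / 24)) : 0 ≤ 1 - (1.01207 - 0.1566 * t + 2.2033 * t ^ 2) * (1 - 9.869604 * t ^ 2 / 6 + (9.869604 * t ^ 2) ^ 2 / 120 - (9.869604 * t ^ 2) ^ 3 / 5040 + (9.869604 * t ^ 2) ^ 4 / 362880) := by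
  have e : 1 - (1.01207 - 0.1566 * t + 2.2033 * t ^ 2) * (1 - 9.869604 * t ^ 2 / 6 + (9.869604 * t ^ 2) ^ 2 / 120 - (9.869604 * t ^ 2) ^ 3 / 5040 + (9.869604 * t ^ 2) ^ 4 / 362880) =
      (178790471539863988321582415284567 / 119209289550781250000000) * (t - (1 / 6)) ^ 0 * ((5 / 24) - t) ^ 10 +
      (55005106648446928076154870050354581 / 1668930053710937500000000) * (t - (1 / 6)) ^ 1 * ((5 / 24) - t) ^ 9 +
      (2746795052987462414698433762757807519 / 13351440429687500000000000) * (t - (1 / 6)) ^ 2 * ((5 / 24) - t) ^ 8 +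
      (862771789678547251013858572069039749 / 1335144042968750000000000) * (t - (1 / 6)) ^ 3 * ((5 / 24) - t) ^ 7 +
      (5199299301133769393713965847446973101 / 4272460937500000000000000) * (t - (1 / 6)) ^ 4 * ((5 / 24) - t) ^ 6 +
      (2524953157295363267204980704701213271 / 1708984375000000000000000) * (t - (1 / 6)) ^ 5 * ((5 / 24) - t) ^ 5 +
      (649145972996916333892494656023861059 / 546875000000000000000000) * (t - (1 / 6)) ^ 6 * ((5 / 24) - t) ^ 4 +
      (343134669555211335920877795571123233 / 546875000000000000000000) * (t - (1 / 6)) ^ 7 * ((5 / 24) - t) ^ 3 +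
      (733789140997325102803506945056383197 / 3500000000000000000000000) * (t - (1 / 6)) ^ 8 * ((5 / 24) - t) ^ 2 +
      (56170797051293056596965050555988561 / 1400000000000000000000000) * (t - (1 / 6)) ^ 9 * ((5 / 24) - t) ^ 1 +
      (1074924297957719948885239417161877 / 320000000000000000000000) * (t - (1 / 6)) ^ 10 * ((5 / 24) - t) ^ 0 := by ring
  have u : 0 ≤ t - (1 / 6) := by linarith
  have w : 0 ≤ (5 / 24) - t := by linarith
  rw [e]; positivity

theorem p1_1 (t : ℝ) (h1 : (5 / 24) ≤ t) (h2 : t ≤ (1 / 4)) : 0 ≤ 1 - (1.01207 - 0.1566 * t + 2.2033 * t ^ 2) * (1 - 9.869604 * t ^ 2 / 6 + (9.869604 * t ^ 2) ^ 2 / 120 - (9.869604 * t ^ 2) ^ 3 / 5040 + (9.869604 * t ^ 2) ^ 4 / 362880) := by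
  have e : 1 - (1.01207 - 0.1566 * t + 2.2033 * t ^ 2) * (1 - 9.869604 * t ^ 2 / 6 + (9.869604 * t ^ 2) ^ 2 / 120 - (9.869604 * t ^ 2) ^ 3 / 5040 + (9.869604 * t ^ 2) ^ 4 / 362880) =
      (1074924297957719948885239417161877 / 320000000000000000000000) * (t - (5 / 24)) ^ 0 * ((1 / 4) - t) ^ 10 +
      (75770158040014877860986796891351353 / 2800000000000000000000000) * (t - (5 / 24)) ^ 1 * ((1 / 4) - t) ^ 9 +
      (1289441941173594821231579090297373183 / 14000000000000000000000000) * (t - (5 / 24)) ^ 2 * ((1 / 4) - t) ^ 8 +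
      (762228201118010229187611136613461251 / 4375000000000000000000000) * (t - (5 / 24)) ^ 3 * ((1 / 4) - t) ^ 7 +
      (1826451326269033477563392020832961087 / 8750000000000000000000000) * (t - (5 / 24)) ^ 4 * ((1 / 4) - t) ^ 6 +
      (10299209614003071556082177767554229803 / 54687500000000000000000000) * (t - (5 / 24)) ^ 5 * ((1 / 4) - t) ^ 5 +
      (45236449508737464697474798534213316739 / 273437500000000000000000000) * (t - (5 / 24)) ^ 6 * ((1 / 4) - t) ^ 4 +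
      (24462489825631556757663790371887242323 / 170898437500000000000000000) * (t - (5 / 24)) ^ 7 * ((1 / 4) - t) ^ 3 +
      (313999265637809205925184534536935743799 / 3417968750000000000000000000) * (t - (5 / 24)) ^ 8 * ((1 / 4) - t) ^ 2 +
      (29174552189218405465483635541065966597 / 854492187500000000000000000) * (t - (5 / 24)) ^ 9 * ((1 / 4) - t) ^ 1 +
      (4608307886111757269737893445604704371 / 854492187500000000000000000) * (t - (5 / 24)) ^ 10 * ((1 / 4) - t) ^ 0 := by ring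
  have u : 0 ≤ t - (5 / 24) := by linarith
  have w : 0 ≤ (1 / 4) - t := by linarith
  rw [e]; positivity

theorem p2_0 (t : ℝ) (h1 : (1 / 6) ≤ t) (h2 : t ≤ (5 / 24)) : 0 ≤ (1.01218 - 0.1566 * t + 2.2033 * t ^ 2) * (1 - 9.869605 * t ^ 2 / 6 + (9.869605 * t ^ 2) ^ 2 / 120 - (9.869605 * t ^ 2) ^ 3 / 5040) - 1 := by
  have e : (1.01218 - 0.1566 * t + 2.2033 * t ^ 2) * (1 - 9.869605 * t ^ 2 / 6 + (9.869605 * t ^ 2) ^ 2 / 120 - (9.869605 * t ^ 2) ^ 3 / 5040) - 1 =
      (275514910947144390362838251 / 30761718750000000000) * (t - (1 / 6)) ^ 0 * ((5 / 24) - t) ^ 8 +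
      (1236538794482026930534566047 / 30761718750000000000) * (t - (1 / 6)) ^ 1 * ((5 / 24) - t) ^ 7 +
      (8760602279667828955941252479 / 123046875000000000000) * (t - (1 / 6)) ^ 2 * ((5 / 24) - t) ^ 6 +
      (7151519701024445031784747789 / 98437500000000000000) * (t - (1 / 6)) ^ 3 * ((5 / 24) - t) ^ 5 +
      (2346723643557319809894676469 / 31500000000000000000) * (t - (1 / 6)) ^ 4 * ((5 / 24) - t) ^ 4 +
      (1135396555802751035233733201 / 12600000000000000000) * (t - (1 / 6)) ^ 5 * ((5 / 24) - t) ^ 3 +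
      (758487345692549503697456539 / 10080000000000000000) * (t - (1 / 6)) ^ 6 * ((5 / 24) - t) ^ 2 +
      (1304739285487089933571208899 / 40320000000000000000) * (t - (1 / 6)) ^ 7 * ((5 / 24) - t) ^ 1 +
      (699117247204454541057950051 / 129024000000000000000) * (t - (1 / 6)) ^ 8 * ((5 / 24) - t) ^ 0 := by ring
  have u : 0 ≤ t - (1 / 6) := by linarith
  have w : 0 ≤ (5 / 24) - t := by linarith
  rw [e]; positivity

theorem p2_1 (t : ℝ) (h1 : (5 / 24) ≤ t) (h2 : t ≤ (1 / 4)) : 0 ≤ (1.01218 - 0.1566 * t + 2.2033 * t ^ 2) * (1 - 9.869605 * t ^ 2 / 6 + (9.869605 * t ^ 2) ^ 2 / 120 - (9.869605 * t ^ 2) ^ 3 / 5040) - 1 := by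
  have e : (1.01218 - 0.1566 * t + 2.2033 * t ^ 2) * (1 - 9.869605 * t ^ 2 / 6 + (9.869605 * t ^ 2) ^ 2 / 120 - (9.869605 * t ^ 2) ^ 3 / 5040) - 1 =
      (699117247204454541057950051 / 129024000000000000000) * (t - (5 / 24)) ^ 0 * ((1 / 4) - t) ^ 8 +
      (182570579211265230976545113 / 3360000000000000000) * (t - (5 / 24)) ^ 1 * ((1 / 4) - t) ^ 7 +
      (205260067513485508484914519 / 896000000000000000) * (t - (5 / 24)) ^ 2 * ((1 / 4) - t) ^ 6 +
      (1461974877943170430059821337 / 2800000000000000000) * (t - (5 / 24)) ^ 3 * ((1 / 4) - t) ^ 5 +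
      (38989050040904340398499054081 / 56000000000000000000) * (t - (5 / 24)) ^ 4 * ((1 / 4) - t) ^ 4 +
      (5982527208846319503399477729 / 10937500000000000000) * (t - (5 / 24)) ^ 5 * ((1 / 4) - t) ^ 3 +
      (208195352308118680652242208979 / 875000000000000000000) * (t - (5 / 24)) ^ 6 * ((1 / 4) - t) ^ 2 +
      (5109791966466249843348415641 / 109375000000000000000) * (t - (5 / 24)) ^ 7 * ((1 / 4) - t) ^ 1 +
      (1302346951230905822780744859 / 875000000000000000000) * (t - (5 / 24)) ^ 8 * ((1 / 4) - t) ^ 0 := by ring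
  have u : 0 ≤ t - (5 / 24) := by linarith
  have w : 0 ≤ (1 / 4) - t := by linarith
  rw [e]; positivity

theorem p3_0 (t : ℝ) (h1 : (1 / 6) ≤ t) (h2 : t ≤ (1 / 4)) : 0 ≤ 1 + 0.6931471803 * t + (0.6931471803 * t) ^ 2 / 2 + (0.6931471803 * t) ^ 3 / 6 + (0.6931471803 * t) ^ 4 / 24 + (0.6931471803 * t) ^ 5 / 120 - (1.00052 + 0.6853 * t + 0.2776 * t ^ 2) := by
  have e : 1 + 0.6931471803 * t + (0.6931471803 * t) ^ 2 / 2 + (0.6931471803 * t) ^ 3 / 6 + (0.6931471803 * t) ^ 4 / 24 + (0.6931471803 * t) ^ 5 / 120 - (1.00052 + 0.6853 * t + 0.2776 * t ^ 2) =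
      (443764692414686175791584175971705031551788280293081 / 125000000000000000000000000000000000000000000000000) * (t - (1 / 6)) ^ 0 * ((1 / 4) - t) ^ 5 +
      (1092763147747537262410424259907444576365744840879243 / 50000000000000000000000000000000000000000000000000) * (t - (1 / 6)) ^ 1 * ((1 / 4) - t) ^ 4 +
      (1908535980843415659448221332404122174228374522637729 / 50000000000000000000000000000000000000000000000000) * (t - (1 / 6)) ^ 2 * ((1 / 4) - t) ^ 3 +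
      (2785102277825043006837309725372131858078543567913187 / 100000000000000000000000000000000000000000000000000) * (t - (1 / 6)) ^ 3 * ((1 / 4) - t) ^ 2 +
      (4395640774540514573051266570938891580415890703739561 / 400000000000000000000000000000000000000000000000000) * (t - (1 / 6)) ^ 4 * ((1 / 4) - t) ^ 1 +
      (12019946860592225472564012528313762759788452111218683 / 4000000000000000000000000000000000000000000000000000) * (t - (1 / 6)) ^ 5 * ((1 / 4) - t) ^ 0 := by ring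
  have u : 0 ≤ t - (1 / 6) := by linarith
  have w : 0 ≤ (1 / 4) - t := by linarith
  rw [e]; positivity

theorem p4_0 (t : ℝ) (h1 : (1 / 6) ≤ t) (h2 : t ≤ (1 / 4)) : 0 ≤ 1.00055 + 0.6853 * t + 0.2776 * t ^ 2 - (1 + 0.6931471808 * t + (0.6931471808 * t) ^ 2 / 2 + (0.6931471808 * t) ^ 3 / 6 + (0.6931471808 * t) ^ 4 / 24 + (0.6931471808 * t) ^ 5 / 100) := by
  have e : 1.00055 + 0.6853 * t + 0.2776 * t ^ 2 - (1 + 0.6931471808 * t + (0.6931471808 * t) ^ 2 / 2 + (0.6931471808 * t) ^ 3 / 6 + (0.6931471808 * t) ^ 4 / 24 + (0.6931471808 * t) ^ 5 / 100) =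
      (1136878769636564857339190402204791232403993 / 291038304567337036132812500000000000000000) * (t - (1 / 6)) ^ 0 * ((1 / 4) - t) ^ 5 +
      (1793425368014101136834711204478499478461979 / 116415321826934814453125000000000000000000) * (t - (1 / 6)) ^ 1 * ((1 / 4) - t) ^ 4 +
      (4224315256847386974910793353121625779135937 / 116415321826934814453125000000000000000000) * (t - (1 / 6)) ^ 2 * ((1 / 4) - t) ^ 3 +
      (10829013671179958031284875391704509368657811 / 232830643653869628906250000000000000000000) * (t - (1 / 6)) ^ 3 * ((1 / 4) - t) ^ 2 +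
      (24325702285589796407660051136976174199723433 / 931322574615478515625000000000000000000000) * (t - (1 / 6)) ^ 4 * ((1 / 4) - t) ^ 1 +
      (40932886331264721284291417066047710880420299 / 9313225746154785156250000000000000000000000) * (t - (1 / 6)) ^ 5 * ((1 / 4) - t) ^ 0 := by ring
  have u : 0 ≤ t - (1 / 6) := by linarith
  have w : 0 ≤ (1 / 4) - t := by linarith
  rw [e]; positivity

theorem p5_0 (t : ℝ) (h1 : (1 / 6) ≤ t) (h2 : t ≤ (1 / 4)) : 0 ≤ (1.01207 - 0.1566 * t + 2.2033 * t ^ 2) / 2 - (0.0827 - 0.4639 * t + 0.5311 * t ^ 2 + 0.6266571 * (1.00055 + 0.6853 * t + 0.2776 * t ^ 2)) ^ 2 := by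
  have e : (1.01207 - 0.1566 * t + 2.2033 * t ^ 2) / 2 - (0.0827 - 0.4639 * t + 0.5311 * t ^ 2 + 0.6266571 * (1.00055 + 0.6853 * t + 0.2776 * t ^ 2)) ^ 2 =
      (56165407932175650311 / 39062500000000000000) * (t - (1 / 6)) ^ 0 * ((1 / 4) - t) ^ 4 +
      (270669981934433372583 / 78125000000000000000) * (t - (1 / 6)) ^ 1 * ((1 / 4) - t) ^ 3 +
      (38452567448834374203 / 5000000000000000000) * (t - (1 / 6)) ^ 2 * ((1 / 4) - t) ^ 2 +
      (2295230025309465620241 / 312500000000000000000) * (t - (1 / 6)) ^ 3 * ((1 / 4) - t) ^ 1 +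
      (739908936165968965719 / 625000000000000000000) * (t - (1 / 6)) ^ 4 * ((1 / 4) - t) ^ 0 := by ring
  have u : 0 ≤ t - (1 / 6) := by linarith
  have w : 0 ≤ (1 / 4) - t := by linarith
  rw [e]; positivity

/-! ### Taylor bounds of the sine -/

theorem mono0 (f f' : ℝ → ℝ) (h0 : 0 ≤ f 0) (hd : ∀ x, HasDerivAt f (f' x) x)
    (hp : ∀ x, 0 ≤ x → 0 ≤ f' x) : ∀ x, 0 ≤ x → 0 ≤ f x := by
  intro x hx
  have hm : MonotoneOn f (Ici 0) := by
    apply monotoneOn_of_deriv_nonneg (convex_Ici 0)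
    · exact fun y _ => (hd y).continuousAt.continuousWithinAt
    · exact fun y _ => (hd y).differentiableAt.differentiableWithinAt
    · intro y hy
      rw [interior_Ici] at hy
      rw [(hd y).deriv]
      exact hp y (le_of_lt hy)
  exact h0.trans (hm (mem_Ici.2 le_rfl) (mem_Ici.2 hx) hx)

theorem hasDerivAt_mono (n : ℕ) (c : ℝ) (x : ℝ) :
    HasDerivAt (fun x : ℝ => c * x ^ n) (c * (n * x ^ (n - 1))) x :=
  (hasDerivAt_pow n x).const_mul c

theorem s1 : ∀ x : ℝ, 0 ≤ x → 0 ≤ x - Real.sin x := by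
  intro x hx
  have := Real.sin_le hx
  linarith

theorem c2 : ∀ x : ℝ, 0 ≤ x → 0 ≤ Real.cos x - (1 - x ^ 2 / 2) := by
  apply mono0 _ (fun x => x - Real.sin x) (by norm_num) _ s1
  intro x
  have h := ((Real.hasDerivAt_cos x).sub ((hasDerivAt_mono 2 (1 / 2) x).const_sub 1))
  refine (h.congr_deriv ?_).congr_of_eventuallyEq ?_
  · norm_num
    ring
  · exact Filter.Eventually.of_forall fun y => by simp; ring

theorem s3 : ∀ x : ℝ, 0 ≤ x → 0 ≤ Real.sin x - (x - x ^ 3 / 6) := by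
  apply mono0 _ (fun x => Real.cos x - (1 - x ^ 2 / 2)) (by norm_num) _ c2
  intro x
  have h := ((Real.hasDerivAt_sin x).sub ((hasDerivAt_id x).sub (hasDerivAt_mono 3 (1 / 6) x)))
  refine (h.congr_deriv ?_).congr_of_eventuallyEq ?_
  · norm_num
    ring
  · exact Filter.Eventually.of_forall fun y => by simp; ring

theorem c4 : ∀ x : ℝ, 0 ≤ x → 0 ≤ (1 - x ^ 2 / 2 + x ^ 4 / 24) - Real.cos x := by
  apply mono0 _ (fun x => Real.sin x - (x - x ^ 3 / 6)) (by norm_num) _ s3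
  intro x
  have h := (((hasDerivAt_mono 2 (1 / 2) x).const_sub 1).add (hasDerivAt_mono 4 (1 / 24) x)).sub
    (Real.hasDerivAt_cos x)
  refine (h.congr_deriv ?_).congr_of_eventuallyEq ?_
  · norm_num
    ring
  · exact Filter.Eventually.of_forall fun y => by simp; ring

theorem s5 : ∀ x : ℝ, 0 ≤ x → 0 ≤ (x - x ^ 3 / 6 + x ^ 5 / 120) - Real.sin x := by
  apply mono0 _ (fun x => (1 - x ^ 2 / 2 + x ^ 4 / 24) - Real.cos x) (by norm_num) _ c4
  intro x
  have h := (((hasDerivAt_id x).sub (hasDerivAt_mono 3 (1 / 6) x)).add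
    (hasDerivAt_mono 5 (1 / 120) x)).sub (Real.hasDerivAt_sin x)
  refine (h.congr_deriv ?_).congr_of_eventuallyEq ?_
  · norm_num
    ring
  · exact Filter.Eventually.of_forall fun y => by simp; ring

theorem c6 : ∀ x : ℝ, 0 ≤ x →
    0 ≤ Real.cos x - (1 - x ^ 2 / 2 + x ^ 4 / 24 - x ^ 6 / 720) := by
  apply mono0 _ (fun x => (x - x ^ 3 / 6 + x ^ 5 / 120) - Real.sin x) (by norm_num) _ s5
  intro x
  have h := (Real.hasDerivAt_cos x).sub ((((hasDerivAt_mono 2 (1 / 2) x).const_sub 1).add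
    (hasDerivAt_mono 4 (1 / 24) x)).sub (hasDerivAt_mono 6 (1 / 720) x))
  refine (h.congr_deriv ?_).congr_of_eventuallyEq ?_
  · norm_num
    ring
  · exact Filter.Eventually.of_forall fun y => by simp; ring

theorem s7 : ∀ x : ℝ, 0 ≤ x →
    0 ≤ Real.sin x - (x - x ^ 3 / 6 + x ^ 5 / 120 - x ^ 7 / 5040) := by
  apply mono0 _ (fun x => Real.cos x - (1 - x ^ 2 / 2 + x ^ 4 / 24 - x ^ 6 / 720))
    (by norm_num) _ c6
  intro x
  have h := (Real.hasDerivAt_sin x).sub ((((hasDerivAt_id x).sub (hasDerivAt_mono 3 (1 / 6) x)).add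
    (hasDerivAt_mono 5 (1 / 120) x)).sub (hasDerivAt_mono 7 (1 / 5040) x))
  refine (h.congr_deriv ?_).congr_of_eventuallyEq ?_
  · norm_num
    ring
  · exact Filter.Eventually.of_forall fun y => by simp; ring

theorem c8 : ∀ x : ℝ, 0 ≤ x →
    0 ≤ (1 - x ^ 2 / 2 + x ^ 4 / 24 - x ^ 6 / 720 + x ^ 8 / 40320) - Real.cos x := by
  apply mono0 _ (fun x => Real.sin x - (x - x ^ 3 / 6 + x ^ 5 / 120 - x ^ 7 / 5040))
    (by norm_num) _ s7
  intro x
  have h := (((((hasDerivAt_mono 2 (1 / 2) x).const_sub 1).add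
    (hasDerivAt_mono 4 (1 / 24) x)).sub (hasDerivAt_mono 6 (1 / 720) x)).add
    (hasDerivAt_mono 8 (1 / 40320) x)).sub (Real.hasDerivAt_cos x)
  refine (h.congr_deriv ?_).congr_of_eventuallyEq ?_
  · norm_num
    ring
  · exact Filter.Eventually.of_forall fun y => by simp; ring

theorem s9 : ∀ x : ℝ, 0 ≤ x →
    0 ≤ (x - x ^ 3 / 6 + x ^ 5 / 120 - x ^ 7 / 5040 + x ^ 9 / 362880) - Real.sin x := by
  apply mono0 _ (fun x => (1 - x ^ 2 / 2 + x ^ 4 / 24 - x ^ 6 / 720 + x ^ 8 / 40320) - Real.cos x)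
    (by norm_num) _ c8
  intro x
  have h := (((((hasDerivAt_id x).sub (hasDerivAt_mono 3 (1 / 6) x)).add
    (hasDerivAt_mono 5 (1 / 120) x)).sub (hasDerivAt_mono 7 (1 / 5040) x)).add
    (hasDerivAt_mono 9 (1 / 362880) x)).sub (Real.hasDerivAt_sin x)
  refine (h.congr_deriv ?_).congr_of_eventuallyEq ?_
  · norm_num
    ring
  · exact Filter.Eventually.of_forall fun y => by simp; ring

/-! ### `π²` -/

theorem pi2_lo : 9.869604 ≤ Real.pi ^ 2 := by
  have h := Real.pi_gt_d20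
  have h0 : (0 : ℝ) < 3.14159265 := by norm_num
  have h1 : (3.14159265 : ℝ) ≤ Real.pi := le_trans (by norm_num) h.le
  nlinarith

theorem pi2_hi : Real.pi ^ 2 ≤ 9.869605 := by
  have h := Real.pi_lt_d20
  have h1 : Real.pi ≤ (3.14159266 : ℝ) := le_trans h.le (by norm_num)
  nlinarith [Real.pi_pos]

/-- `S9` is antitone on `[0,1]`. -/
theorem S9_anti (a b : ℝ) (ha : 0 ≤ a) (hab : a ≤ b) (hb : b ≤ 1) :
    1 - b / 6 + b ^ 2 / 120 - b ^ 3 / 5040 + b ^ 4 / 362880 ≤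
      1 - a / 6 + a ^ 2 / 120 - a ^ 3 / 5040 + a ^ 4 / 362880 := by
  have e : (1 - a / 6 + a ^ 2 / 120 - a ^ 3 / 5040 + a ^ 4 / 362880) -
      (1 - b / 6 + b ^ 2 / 120 - b ^ 3 / 5040 + b ^ 4 / 362880) =
      (b - a) * (1 / 6 - (a + b) / 120 + (a ^ 2 + a * b + b ^ 2) / 5040 -
        (a ^ 3 + a ^ 2 * b + a * b ^ 2 + b ^ 3) / 362880) := by ring
  have ha1 : a ≤ 1 := hab.trans hb
  have hb0 : 0 ≤ b := ha.trans hab
  have q1 : a ^ 3 ≤ 1 := pow_le_one₀ ha ha1
  have q2 : b ^ 3 ≤ 1 := pow_le_one₀ hb0 hb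
  have q3 : a ^ 2 * b ≤ 1 := mul_le_one₀ (pow_le_one₀ ha ha1) hb0 hb
  have q4 : a * b ^ 2 ≤ 1 := mul_le_one₀ ha1 (by positivity) (pow_le_one₀ hb0 hb)
  have q5 : 0 ≤ a ^ 2 + a * b + b ^ 2 := by positivity
  have : 0 ≤ (b - a) * (1 / 6 - (a + b) / 120 + (a ^ 2 + a * b + b ^ 2) / 5040 -
        (a ^ 3 + a ^ 2 * b + a * b ^ 2 + b ^ 3) / 362880) := by
    apply mul_nonneg (by linarith)
    linarith
  linarith

theorem S7_anti (a b : ℝ) (ha : 0 ≤ a) (hab : a ≤ b) (hb : b ≤ 1) :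
    1 - b / 6 + b ^ 2 / 120 - b ^ 3 / 5040 ≤ 1 - a / 6 + a ^ 2 / 120 - a ^ 3 / 5040 := by
  have e : (1 - a / 6 + a ^ 2 / 120 - a ^ 3 / 5040) - (1 - b / 6 + b ^ 2 / 120 - b ^ 3 / 5040) =
      (b - a) * (1 / 6 - (a + b) / 120 + (a ^ 2 + a * b + b ^ 2) / 5040) := by ring
  have hb0 : 0 ≤ b := ha.trans hab
  have q5 : 0 ≤ a ^ 2 + a * b + b ^ 2 := by positivity
  have : 0 ≤ (b - a) * (1 / 6 - (a + b) / 120 + (a ^ 2 + a * b + b ^ 2) / 5040) := by
    apply mul_nonneg (by linarith)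
    linarith
  linarith

theorem vv_lo (t : ℝ) (h1 : 1 / 6 ≤ t) (h2 : t ≤ 1 / 4) :
    0.01207 - 0.1566 * t + 2.2033 * t ^ 2 ≤ vv t := by
  have hpi := Real.pi_pos
  have ht0 : 0 < t := by linarith
  have hx0 : 0 < Real.pi * t := by positivity
  have hs : 0 < Real.sin (Real.pi * t) :=
    Real.sin_pos_of_pos_of_lt_pi hx0 (by nlinarith)
  have p : 0 ≤ 1 - (1.01207 - 0.1566 * t + 2.2033 * t ^ 2) * (1 - 9.869604 * t ^ 2 / 6 + (9.869604 * t ^ 2) ^ 2 / 120 - (9.869604 * t ^ 2) ^ 3 / 5040 + (9.869604 * t ^ 2) ^ 4 / 362880) := by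
    rcases le_total t (5 / 24) with h | h
    · exact p1_0 t (by linarith) h
    · exact p1_1 t h (by linarith)
  have hL : 0 < 1.01207 - 0.1566 * t + 2.2033 * t ^ 2 := by nlinarith
  have ht2 : t ^ 2 ≤ 1 / 16 := by nlinarith
  have ya : 9.869604 * t ^ 2 ≤ Real.pi ^ 2 * t ^ 2 :=
    mul_le_mul_of_nonneg_right pi2_lo (by positivity)
  have yb : Real.pi ^ 2 * t ^ 2 ≤ 1 := by
    have := pi2_hi
    have h3 : Real.pi ^ 2 * t ^ 2 ≤ 9.869605 * (1 / 16) :=
      mul_le_mul this ht2 (by positivity) (by norm_num)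
    linarith
  have S := S9_anti _ _ (by positivity) ya yb
  have T := s9 (Real.pi * t) hx0.le
  have key : (1.01207 - 0.1566 * t + 2.2033 * t ^ 2) * Real.sin (Real.pi * t) ≤ Real.pi * t := by
    have e : (Real.pi * t) - (Real.pi * t) ^ 3 / 6 + (Real.pi * t) ^ 5 / 120 - (Real.pi * t) ^ 7 / 5040
        + (Real.pi * t) ^ 9 / 362880 = (Real.pi * t) * (1 - Real.pi ^ 2 * t ^ 2 / 6 +
          (Real.pi ^ 2 * t ^ 2) ^ 2 / 120 - (Real.pi ^ 2 * t ^ 2) ^ 3 / 5040 +
          (Real.pi ^ 2 * t ^ 2) ^ 4 / 362880) := by ring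
    calc (1.01207 - 0.1566 * t + 2.2033 * t ^ 2) * Real.sin (Real.pi * t)
        ≤ (1.01207 - 0.1566 * t + 2.2033 * t ^ 2) * ((Real.pi * t) * (1 - Real.pi ^ 2 * t ^ 2 / 6 +
          (Real.pi ^ 2 * t ^ 2) ^ 2 / 120 - (Real.pi ^ 2 * t ^ 2) ^ 3 / 5040 +
          (Real.pi ^ 2 * t ^ 2) ^ 4 / 362880)) := by
          apply mul_le_mul_of_nonneg_left _ hL.le
          rw [← e]; linarith
      _ = (Real.pi * t) * ((1.01207 - 0.1566 * t + 2.2033 * t ^ 2) * (1 - Real.pi ^ 2 * t ^ 2 / 6 +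
          (Real.pi ^ 2 * t ^ 2) ^ 2 / 120 - (Real.pi ^ 2 * t ^ 2) ^ 3 / 5040 +
          (Real.pi ^ 2 * t ^ 2) ^ 4 / 362880)) := by ring
      _ ≤ (Real.pi * t) * 1 := by
          apply mul_le_mul_of_nonneg_left _ hx0.le
          refine le_trans (mul_le_mul_of_nonneg_left S hL.le) ?_
          linarith
      _ = Real.pi * t := mul_one _
  have : 1.01207 - 0.1566 * t + 2.2033 * t ^ 2 ≤ Real.pi * t / Real.sin (Real.pi * t) := by
    rw [le_div_iff₀ hs]; exact key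
  unfold vv
  linarith

theorem vv_hi (t : ℝ) (h1 : 1 / 6 ≤ t) (h2 : t ≤ 1 / 4) :
    vv t ≤ 0.01218 - 0.1566 * t + 2.2033 * t ^ 2 := by
  have hpi := Real.pi_pos
  have ht0 : 0 < t := by linarith
  have hx0 : 0 < Real.pi * t := by positivity
  have hs : 0 < Real.sin (Real.pi * t) :=
    Real.sin_pos_of_pos_of_lt_pi hx0 (by nlinarith)
  have p : 0 ≤ (1.01218 - 0.1566 * t + 2.2033 * t ^ 2) * (1 - 9.869605 * t ^ 2 / 6 + (9.869605 * t ^ 2) ^ 2 / 120 - (9.869605 * t ^ 2) ^ 3 / 5040) - 1 := by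
    rcases le_total t (5 / 24) with h | h
    · exact p2_0 t (by linarith) h
    · exact p2_1 t h (by linarith)
  have hL : 0 < 1.01218 - 0.1566 * t + 2.2033 * t ^ 2 := by nlinarith
  have ht2 : t ^ 2 ≤ 1 / 16 := by nlinarith
  have ya : Real.pi ^ 2 * t ^ 2 ≤ 9.869605 * t ^ 2 :=
    mul_le_mul_of_nonneg_right pi2_hi (by positivity)
  have yb : 9.869605 * t ^ 2 ≤ 1 := by nlinarith
  have S := S7_anti _ _ (by positivity) ya yb
  have T := s7 (Real.pi * t) hx0.le
  have key : Real.pi * t ≤ (1.01218 - 0.1566 * t + 2.2033 * t ^ 2) * Real.sin (Real.pi * t) := by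
    have e : (Real.pi * t) - (Real.pi * t) ^ 3 / 6 + (Real.pi * t) ^ 5 / 120 - (Real.pi * t) ^ 7 / 5040
        = (Real.pi * t) * (1 - Real.pi ^ 2 * t ^ 2 / 6 +
          (Real.pi ^ 2 * t ^ 2) ^ 2 / 120 - (Real.pi ^ 2 * t ^ 2) ^ 3 / 5040) := by ring
    calc Real.pi * t = (Real.pi * t) * 1 := (mul_one _).symm
      _ ≤ (Real.pi * t) * ((1.01218 - 0.1566 * t + 2.2033 * t ^ 2) * (1 - Real.pi ^ 2 * t ^ 2 / 6 +
          (Real.pi ^ 2 * t ^ 2) ^ 2 / 120 - (Real.pi ^ 2 * t ^ 2) ^ 3 / 5040)) := by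
          apply mul_le_mul_of_nonneg_left _ hx0.le
          refine le_trans ?_ (mul_le_mul_of_nonneg_left S hL.le)
          linarith
      _ = (1.01218 - 0.1566 * t + 2.2033 * t ^ 2) * ((Real.pi * t) * (1 - Real.pi ^ 2 * t ^ 2 / 6 +
          (Real.pi ^ 2 * t ^ 2) ^ 2 / 120 - (Real.pi ^ 2 * t ^ 2) ^ 3 / 5040)) := by ring
      _ ≤ (1.01218 - 0.1566 * t + 2.2033 * t ^ 2) * Real.sin (Real.pi * t) := by
          apply mul_le_mul_of_nonneg_left _ hL.le
          rw [← e]; linarith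
  have : Real.pi * t / Real.sin (Real.pi * t) ≤ 1.01218 - 0.1566 * t + 2.2033 * t ^ 2 := by
    rw [div_le_iff₀ hs]; exact key
  unfold vv
  linarith

/-! ### `2^θ` -/

theorem two_lo (t : ℝ) (h1 : 1 / 6 ≤ t) (h2 : t ≤ 1 / 4) :
    1.00052 + 0.6853 * t + 0.2776 * t ^ 2 ≤ (2 : ℝ) ^ t := by
  have ht0 : 0 < t := by linarith
  have p := p3_0 t (by linarith) (by linarith)
  have hl := Real.log_two_gt_d9
  have hx : 0.6931471803 * t ≤ Real.log 2 * t := mul_le_mul_of_nonneg_right hl.le ht0.le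
  have T := Real.sum_le_exp_of_nonneg (x := 0.6931471803 * t) (by positivity) 6
  rw [Real.rpow_def_of_pos (by norm_num : (0 : ℝ) < 2)]
  refine le_trans ?_ (Real.exp_le_exp.2 hx)
  refine le_trans ?_ T
  simp only [Finset.sum_range_succ, Finset.sum_range_zero, Nat.factorial, pow_zero]
  norm_num
  norm_num at p
  linarith

theorem two_hi (t : ℝ) (h1 : 1 / 6 ≤ t) (h2 : t ≤ 1 / 4) :
    (2 : ℝ) ^ t ≤ 1.00055 + 0.6853 * t + 0.2776 * t ^ 2 := by
  have ht0 : 0 < t := by linarith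
  have p := p4_0 t (by linarith) (by linarith)
  have hl := Real.log_two_lt_d9
  have hx : Real.log 2 * t ≤ 0.6931471808 * t := mul_le_mul_of_nonneg_right hl.le ht0.le
  have T := Real.exp_bound' (x := 0.6931471808 * t) (by positivity) (by nlinarith) (n := 5)
    (by norm_num)
  rw [Real.rpow_def_of_pos (by norm_num : (0 : ℝ) < 2)]
  refine le_trans (Real.exp_le_exp.2 hx) ?_
  refine le_trans T ?_
  simp only [Finset.sum_range_succ, Finset.sum_range_zero, Nat.factorial, pow_zero]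
  norm_num
  norm_num at p
  linarith

/-! ### The third estimate -/

theorem sqrt_pi8 : √(Real.pi / 8) ≤ 0.6266571 := by
  rw [Real.sqrt_le_left (by norm_num)]
  have h := Real.pi_lt_d20
  have h1 : Real.pi ≤ (3.14159266 : ℝ) := le_trans h.le (by norm_num)
  norm_num
  linarith

theorem third (t : ℝ) (h1 : 1 / 6 ≤ t) (h2 : t ≤ 1 / 4) :
    0.0827 - 0.4639 * t + 0.5311 * t ^ 2 ≤ √((1 + vv t) / 2) - √(Real.pi / 8) * (2 : ℝ) ^ t := by
  have p := p5_0 t (by linarith) (by linarith)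
  have hv := vv_lo t h1 h2
  have h2t := two_hi t h1 h2
  have h2p : (0 : ℝ) < (2 : ℝ) ^ t := Real.rpow_pos_of_pos (by norm_num) _
  have hq : √(Real.pi / 8) * (2 : ℝ) ^ t ≤ 0.6266571 * (1.00055 + 0.6853 * t + 0.2776 * t ^ 2) :=
    mul_le_mul sqrt_pi8 h2t h2p.le (by norm_num)
  have hs : 0.0827 - 0.4639 * t + 0.5311 * t ^ 2 +
      0.6266571 * (1.00055 + 0.6853 * t + 0.2776 * t ^ 2) ≤ √((1 + vv t) / 2) := by
    apply Real.le_sqrt_of_sq_le
    linarith
  linarith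

/-! ### The function `log sin(πθ) - log θ + θ log 4` -/

noncomputable def ff (t : ℝ) : ℝ := Real.log (Real.sin (Real.pi * t)) - Real.log t + t * Real.log 4

theorem sin_pos' {t : ℝ} (ht : t ∈ Ioo (0 : ℝ) 1) : 0 < Real.sin (Real.pi * t) :=
  Real.sin_pos_of_pos_of_lt_pi (mul_pos Real.pi_pos ht.1) (by nlinarith [Real.pi_pos, ht.2])

theorem d1 {t : ℝ} (ht : t ∈ Ioo (0 : ℝ) 1) :
    HasDerivAt ff (Real.pi * Real.cos (Real.pi * t) / Real.sin (Real.pi * t) - 1 / t +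
      Real.log 4) t := by
  have hs := sin_pos' ht
  have h1 : HasDerivAt (fun t : ℝ => Real.pi * t) Real.pi t := by
    simpa using (hasDerivAt_id t).const_mul Real.pi
  have h2 := (h1.sin).log hs.ne'
  have h3 := Real.hasDerivAt_log ht.1.ne'
  have h4 : HasDerivAt (fun t : ℝ => t * Real.log 4) (Real.log 4) t := by
    simpa using (hasDerivAt_id t).mul_const (Real.log 4)
  have h := (h2.sub h3).add h4
  refine h.congr_deriv ?_
  rw [one_div]
  ring

theorem d2 {t : ℝ} (ht : t ∈ Ioo (0 : ℝ) 1) :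
    HasDerivAt (fun t => Real.pi * Real.cos (Real.pi * t) / Real.sin (Real.pi * t) - 1 / t +
      Real.log 4) (-(Real.pi ^ 2) / Real.sin (Real.pi * t) ^ 2 + 1 / t ^ 2) t := by
  have hs := sin_pos' ht
  have h1 : HasDerivAt (fun t : ℝ => Real.pi * t) Real.pi t := by
    simpa using (hasDerivAt_id t).const_mul Real.pi
  have h2 := ((h1.cos).const_mul Real.pi).div (h1.sin) hs.ne'
  have h3 : HasDerivAt (fun t : ℝ => 1 / t) (-(1 / t ^ 2)) t := by
    have := hasDerivAt_inv ht.1.ne'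
    simpa [one_div] using this
  have h := (h2.sub h3).add_const (Real.log 4)
  refine h.congr_deriv ?_
  have e : Real.pi * (-Real.sin (Real.pi * t) * Real.pi) * Real.sin (Real.pi * t) -
      Real.pi * Real.cos (Real.pi * t) * (Real.cos (Real.pi * t) * Real.pi) = -(Real.pi ^ 2) := by
    have := Real.sin_sq_add_cos_sq (Real.pi * t)
    linear_combination (-(Real.pi ^ 2)) * this
  rw [e]
  ring

theorem ff_conc : StrictConcaveOn ℝ (Ioo (0 : ℝ) 1) ff := by
  apply strictConcaveOn_of_deriv2_neg' (convex_Ioo 0 1)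
  · exact fun t ht => (d1 ht).continuousAt.continuousWithinAt
  · intro t ht
    have e : deriv ff =ᶠ[nhds t] fun t => Real.pi * Real.cos (Real.pi * t) / Real.sin (Real.pi * t) -
        1 / t + Real.log 4 := by
      filter_upwards [isOpen_Ioo.mem_nhds ht] with s hs
      exact (d1 hs).deriv
    simp only [Function.iterate_succ, Function.iterate_zero, Function.comp_apply, id_eq]
    rw [e.deriv_eq, (d2 ht).deriv]
    have hs := sin_pos' ht
    have hx0 : 0 < Real.pi * t := mul_pos Real.pi_pos ht.1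
    have hlt : Real.sin (Real.pi * t) < Real.pi * t := Real.sin_lt hx0
    have h2 : Real.sin (Real.pi * t) ^ 2 < (Real.pi * t) ^ 2 := by
      apply pow_lt_pow_left₀ hlt hs.le (by norm_num)
    have ht2 : 0 < t ^ 2 := by have := ht.1; positivity
    have hs2 : 0 < Real.sin (Real.pi * t) ^ 2 := by positivity
    have h3 : 1 / t ^ 2 < Real.pi ^ 2 / Real.sin (Real.pi * t) ^ 2 := by
      rw [div_lt_div_iff₀ ht2 hs2]
      nlinarith
    have e2 : -(Real.pi ^ 2) / Real.sin (Real.pi * t) ^ 2 =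
        -(Real.pi ^ 2 / Real.sin (Real.pi * t) ^ 2) := by ring
    rw [e2]
    linarith

theorem ff_quarter : ff (1 / 4) = Real.log 4 := by
  unfold ff
  have h1 : Real.pi * (1 / 4) = Real.pi / 4 := by ring
  rw [h1, Real.sin_pi_div_four]
  have h2 : Real.log (√2 / 2) = (1 / 2) * Real.log 2 - Real.log 2 := by
    rw [Real.log_div (by positivity) (by norm_num), Real.log_sqrt (by norm_num)]
    ring
  have h4 : Real.log 4 = 2 * Real.log 2 := by
    rw [show (4 : ℝ) = 2 ^ 2 by norm_num, Real.log_pow]; norm_num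
  have h3 : Real.log (1 / 4 : ℝ) = -(2 * Real.log 2) := by
    rw [one_div, Real.log_inv, h4]
  rw [h2, h3, h4]
  ring

theorem ff_half : ff (1 / 2) = Real.log 4 := by
  unfold ff
  have h1 : Real.pi * (1 / 2) = Real.pi / 2 := by ring
  rw [h1, Real.sin_pi_div_two]
  have h4 : Real.log 4 = 2 * Real.log 2 := by
    rw [show (4 : ℝ) = 2 ^ 2 by norm_num, Real.log_pow]; norm_num
  have h3 : Real.log (1 / 2 : ℝ) = -(Real.log 2) := by
    rw [one_div, Real.log_inv]
  rw [h3, h4, Real.log_one]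
  ring

theorem ff_lt (t : ℝ) (h1 : 0 < t) (h2 : t < 1 / 4) : ff t < Real.log 4 := by
  have hA : t ∈ Ioo (0 : ℝ) 1 := ⟨h1, by linarith⟩
  have hB : (1 / 2 : ℝ) ∈ Ioo (0 : ℝ) 1 := by constructor <;> norm_num
  have hd : 0 < 1 / 2 - t := by linarith
  have a0 : 0 < (1 / 4) / (1 / 2 - t) := by positivity
  have b0 : 0 < (1 / 4 - t) / (1 / 2 - t) := div_pos (by linarith) hd
  have ab : (1 / 4) / (1 / 2 - t) + (1 / 4 - t) / (1 / 2 - t) = 1 := by
    rw [← add_div, div_eq_one_iff_eq hd.ne']; ring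
  have h := ff_conc.2 hA hB (by linarith : t ≠ 1 / 2) a0 b0 ab
  have e : ((1 / 4) / (1 / 2 - t)) • t + ((1 / 4 - t) / (1 / 2 - t)) • (1 / 2 : ℝ) = 1 / 4 := by
    simp only [smul_eq_mul]
    have e0 : (1 / 4) / (1 / 2 - t) * t + (1 / 4 - t) / (1 / 2 - t) * (1 / 2) =
        ((1 / 4) * t + (1 / 4 - t) * (1 / 2)) / (1 / 2 - t) := by ring
    rw [e0, div_eq_iff hd.ne']; ring
  rw [e, ff_quarter, ff_half] at h
  simp only [smul_eq_mul] at h
  by_contra hc
  push Not at hc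
  have : (1 / 4) / (1 / 2 - t) * Real.log 4 ≤ (1 / 4) / (1 / 2 - t) * ff t :=
    mul_le_mul_of_nonneg_left hc a0.le
  have e2 : (1 / 4) / (1 / 2 - t) * Real.log 4 + (1 / 4 - t) / (1 / 2 - t) * Real.log 4 =
      Real.log 4 := by rw [← add_mul, ab, one_mul]
  linarith

theorem lt_ff (t : ℝ) (h1 : 1 / 4 < t) (h2 : t < 1 / 2) : Real.log 4 < ff t := by
  have hA : (1 / 4 : ℝ) ∈ Ioo (0 : ℝ) 1 := by constructor <;> norm_num
  have hB : (1 / 2 : ℝ) ∈ Ioo (0 : ℝ) 1 := by constructor <;> norm_num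
  have a0 : 0 < 2 - 4 * t := by linarith
  have b0 : 0 < 4 * t - 1 := by linarith
  have ab : (2 - 4 * t) + (4 * t - 1) = 1 := by ring
  have h := ff_conc.2 hA hB (by norm_num : (1 / 4 : ℝ) ≠ 1 / 2) a0 b0 ab
  have e : (2 - 4 * t) • (1 / 4 : ℝ) + (4 * t - 1) • (1 / 2 : ℝ) = t := by
    simp only [smul_eq_mul]
    ring
  rw [e, ff_quarter, ff_half] at h
  simp only [smul_eq_mul] at h
  rw [← add_mul, ab, one_mul] at h
  exact h

/-- `exp (ff t) = sin(πt) 4^t / t`. -/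
theorem exp_ff (t : ℝ) (ht : t ∈ Ioo (0 : ℝ) 1) :
    Real.exp (ff t) = Real.sin (Real.pi * t) * (4 : ℝ) ^ t / t := by
  unfold ff
  rw [Real.exp_add, Real.exp_sub, Real.exp_log (sin_pos' ht), Real.exp_log ht.1,
    Real.rpow_def_of_pos (by norm_num : (0 : ℝ) < 4), mul_comm t (Real.log 4)]
  ring

theorem four_sq (t : ℝ) : (4 : ℝ) ^ t = ((2 : ℝ) ^ t) ^ 2 := by
  rw [show (4 : ℝ) = 2 ^ (2 : ℕ) by norm_num, ← Real.rpow_natCast, ← Real.rpow_mul (by norm_num),
    ← Real.rpow_natCast, ← Real.rpow_mul (by norm_num)]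
  congr 1
  ring

theorem fourth (t : ℝ) (h1 : 1 / 6 ≤ t) (h2 : t ≤ 1 / 4) :
    0 ≤ √((1 + vv t) / 2) - √(Real.pi / 8) * (2 : ℝ) ^ t := by
  have ht : t ∈ Ioo (0 : ℝ) 1 := ⟨by linarith, by linarith⟩
  have hle : ff t ≤ Real.log 4 := by
    rcases h2.lt_or_eq with h | h
    · exact (ff_lt t ht.1 h).le
    · rw [h]; exact ff_quarter.le
  have h4 : Real.sin (Real.pi * t) * (4 : ℝ) ^ t / t ≤ 4 := by
    rw [← exp_ff t ht]
    calc Real.exp (ff t) ≤ Real.exp (Real.log 4) := Real.exp_le_exp.2 hle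
      _ = 4 := Real.exp_log (by norm_num)
  have hs := sin_pos' ht
  have h5 : Real.sin (Real.pi * t) * (4 : ℝ) ^ t ≤ 4 * t := by
    rwa [div_le_iff₀ ht.1] at h4
  have h2p : (0 : ℝ) < (2 : ℝ) ^ t := Real.rpow_pos_of_pos (by norm_num) _
  have key : √(Real.pi / 8) * (2 : ℝ) ^ t ≤ √((1 + vv t) / 2) := by
    apply Real.le_sqrt_of_sq_le
    rw [mul_pow, Real.sq_sqrt (by positivity), ← four_sq]
    unfold vv
    have e : (1 + (Real.pi * t / Real.sin (Real.pi * t) - 1)) / 2 =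
        Real.pi * t / (2 * Real.sin (Real.pi * t)) := by
      field_simp
      ring
    rw [e, le_div_iff₀ (by positivity)]
    nlinarith [Real.pi_pos]
  linarith

theorem fifth (t : ℝ) (h1 : 1 / 4 < t) (h2 : t < 1 / 2) :
    √((1 + vv t) / 2) < √(Real.pi / 8) * (2 : ℝ) ^ t := by
  have ht : t ∈ Ioo (0 : ℝ) 1 := ⟨by linarith, by linarith⟩
  have hlt := lt_ff t h1 h2
  have h4 : 4 < Real.sin (Real.pi * t) * (4 : ℝ) ^ t / t := by
    rw [← exp_ff t ht]
    calc (4 : ℝ) = Real.exp (Real.log 4) := (Real.exp_log (by norm_num)).symm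
      _ < Real.exp (ff t) := Real.exp_lt_exp.2 hlt
  have hs := sin_pos' ht
  have h5 : 4 * t < Real.sin (Real.pi * t) * (4 : ℝ) ^ t := by
    rwa [lt_div_iff₀ ht.1] at h4
  have h2p : (0 : ℝ) < (2 : ℝ) ^ t := Real.rpow_pos_of_pos (by norm_num) _
  have hp : 0 < √(Real.pi / 8) * (2 : ℝ) ^ t := by
    have := Real.pi_pos
    positivity
  rw [Real.sqrt_lt' hp, mul_pow, Real.sq_sqrt (by have := Real.pi_pos; positivity), ← four_sq]
  unfold vv
  have e : (1 + (Real.pi * t / Real.sin (Real.pi * t) - 1)) / 2 =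
      Real.pi * t / (2 * Real.sin (Real.pi * t)) := by
    field_simp
    ring
  rw [e, div_lt_iff₀ (by positivity)]
  nlinarith [Real.pi_pos]

end NUM

open NUM in
theorem gNum : GNum := by
  refine ⟨fun t h1 h2 => ⟨vv_lo t h1 h2, vv_hi t h1 h2, two_lo t h1 h2, two_hi t h1 h2,
    third t h1 h2, fourth t h1 h2⟩, fun t h1 h2 => fifth t h1 h2⟩

end Pool.Agent.Helper82.Pq
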